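import Pool.Agent.Lib.MP_b0c2b5_co.LS.Defs

/-!
Interval orders: two height functions which control the covering pairs.
-/

set_option autoImplicit false

namespace Pool.Agent.Lib.MP_b0c2b5_co.IO

open Finset Pool.Agent.Lib.MP_b0c2b5_co.LS

universe u w

/-- a height function of a finite poset -/
theorem exists_height (P : Type u) [Fintype P] [PartialOrder P] :
    ∃ h : P → ℕ, (∀ u v, u < v → h u < h v) ∧ ∀ v, h v ≠ 0 → ∃ u, u < v ∧ h u + 1 = h v := by
  classical
  let F : (v : P) → ((u : P) → u < v → ℕ) → ℕ := fun v ih =>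
    (univ.filter (· < v)).attach.sup fun u => ih u.1 (mem_filter.1 u.2).2 + 1
  let h : P → ℕ := WellFounded.fix (wellFounded_lt (α := P)) F
  have hh : ∀ v, h v = (univ.filter (· < v)).attach.sup fun u => h u.1 + 1 := by
    intro v
    exact WellFounded.fix_eq (wellFounded_lt (α := P)) F v
  refine ⟨h, ?_, ?_⟩
  · intro u v huv
    rw [hh v]
    have h1 : (⟨u, mem_filter.2 ⟨mem_univ u, huv⟩⟩ : {x // x ∈ univ.filter (· < v)}) ∈
        (univ.filter (· < v)).attach := mem_attach _ _
    exact lt_of_lt_of_le (Nat.lt_succ_self _)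
      (le_sup (f := fun u : {x // x ∈ univ.filter (· < v)} => h u.1 + 1) h1)
  · intro v hv
    have hne : (univ.filter (· < v)).attach.Nonempty := by
      rw [nonempty_iff_ne_empty]
      intro he
      apply hv
      rw [hh v, he]
      rfl
    obtain ⟨u, _, hu⟩ := exists_mem_eq_sup _ hne (fun u : {x // x ∈ univ.filter (· < v)} => h u.1 + 1)
    refine ⟨u.1, (mem_filter.1 u.2).2, ?_⟩
    rw [hh v, hu]

variable {P : Type u} [Fintype P] [PartialOrder P] {α : Type w} [LinearOrder α]

/-- the greatest number of elements of a chain whose intervals are to the left of `x` -/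
def kap (r : P → α) (h : P → ℕ) (x : α) : ℕ := (univ.filter (fun v => r v < x)).sup fun v => h v + 1

lemma kap_mono (r : P → α) (h : P → ℕ) {x y : α} (hxy : x ≤ y) : kap r h x ≤ kap r h y := by
  unfold kap
  refine sup_mono ?_
  intro v hv
  rw [mem_filter] at hv ⊢
  exact ⟨hv.1, lt_of_lt_of_le hv.2 hxy⟩

lemma le_kap (r : P → α) (h : P → ℕ) {v : P} {x : α} (hv : r v < x) : h v + 1 ≤ kap r h x :=
  le_sup (f := fun v => h v + 1) (mem_filter.2 ⟨mem_univ v, hv⟩)

/-- an interval representation together with a height function -/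
structure Rep (l r : P → α) (h : P → ℕ) : Prop where
  le : ∀ v, l v ≤ r v
  lt : ∀ u v, u < v ↔ r u < l v
  mono : ∀ u v, u < v → h u < h v
  pred : ∀ v, h v ≠ 0 → ∃ u, u < v ∧ h u + 1 = h v

namespace Rep

variable {l r : P → α} {h : P → ℕ}

lemma kap_l (H : Rep l r h) (v : P) : kap r h (l v) = h v := by
  refine le_antisymm ?_ ?_
  · unfold kap
    refine Finset.sup_le ?_
    intro u hu
    exact H.mono u v ((H.lt u v).2 (mem_filter.1 hu).2)
  · by_cases h0 : h v = 0
    · omega
    · obtain ⟨u, hu, hu2⟩ := H.pred v h0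
      rw [← hu2]
      exact le_kap r h ((H.lt u v).1 hu)

/-- `b u ≤ h v` for `u < v`, where `b u = kap (r u)` -/
lemma b_le_h (H : Rep l r h) {u v : P} (huv : u < v) : kap r h (r u) ≤ h v := by
  rw [← H.kap_l v]
  exact kap_mono r h ((H.lt u v).1 huv).le

lemma h_le_b (H : Rep l r h) (v : P) : h v ≤ kap r h (r v) := by
  rw [← H.kap_l v]
  exact kap_mono r h (H.le v)

lemma b_mono (H : Rep l r h) {u v : P} (huv : u < v) : kap r h (r u) ≤ kap r h (r v) :=
  (H.b_le_h huv).trans (H.h_le_b v)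

lemma b_lt (H : Rep l r h) {u v w : P} (huv : u < v) (hvw : v < w) :
    kap r h (r u) < kap r h (r w) := by
  have h1 := H.b_le_h huv
  have h2 : h v + 1 ≤ kap r h (r w) :=
    le_kap r h (lt_of_lt_of_le ((H.lt v w).1 hvw) (H.le w))
  omega

/-- the height of an upper cover -/
lemma h_le (H : Rep l r h) {u v : P} (huv : u ⋖ v) : h v ≤ kap r h (r u) + 1 := by
  by_contra hcon
  push Not at hcon
  obtain ⟨z, hz, hz2⟩ := H.pred v (by omega)
  obtain ⟨y, hy, hy2⟩ := H.pred z (by omega)
  have h1 : ¬ r y < r u := by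
    intro h2
    have := le_kap r h h2
    omega
  have h3 : u < z := (H.lt u z).2 (lt_of_le_of_lt (not_lt.1 h1) ((H.lt y z).1 hy))
  exact huv.2 h3 hz

lemma nest0 (H : Rep l r h) {v v' w : P} (hb : kap r h (r v) = kap r h (r v')) (hr : r v ≤ r v')
    (hw : v' ⋖ w) (hh : h w = kap r h (r v)) : v ⋖ w := by
  refine ⟨(H.lt v w).2 (lt_of_le_of_lt hr ((H.lt v' w).1 hw.1)), ?_⟩
  intro z hvz hzw
  have h1 := H.b_le_h hvz
  have h2 := H.mono z w hzw
  omega

lemma nest1 (H : Rep l r h) {v v' w : P} (hb : kap r h (r v) = kap r h (r v')) (hr : r v ≤ r v')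
    (hw : v ⋖ w) (hh : h w = kap r h (r v) + 1) : v' ⋖ w := by
  have h1 : r v' < l w := by
    by_contra hcon
    have h2 := kap_mono r h (not_lt.1 hcon)
    rw [H.kap_l w] at h2
    omega
  refine ⟨(H.lt v' w).2 h1, ?_⟩
  intro z hvz hzw
  exact hw.2 ((H.lt v z).2 (lt_of_le_of_lt hr ((H.lt v' z).1 hvz))) hzw

end Rep

end Pool.Agent.Lib.MP_b0c2b5_co.IO
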