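import Pool.Agent.Lib.MP_b0c2b5_co.IO.Poor

/-!
Interval orders: every tree is found if the rich sets are nonempty.
-/

set_option autoImplicit false

namespace Pool.Agent.Lib.MP_b0c2b5_co.IO

open Finset Pool.Agent.Lib.MP_b0c2b5_co.LS

universe u v w

variable {P : Type u} [Fintype P] [PartialOrder P] {α : Type w} [LinearOrder α]

/-- a new vertex -/
lemma exists_new {l r : P → α} {h : P → ℕ} (H : Rep l r h) {m : ℕ} {V : Set P} {v : P}
    (hv : m < (bs r h V v).ncard) (F : Finset P) (hF : 5 * F.card ≤ m) :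
    ∃ w ∈ V, v ⋖ w ∧ ∀ f ∈ F, ¬ w ⋖ f ∧
      (kap r h (r w) + 2 ≤ kap r h (r f) ∨ kap r h (r f) + 2 ≤ kap r h (r w)) ∧
      (kap r h (r v) + 2 ≤ kap r h (r f) ∨ kap r h (r f) + 2 ≤ kap r h (r v) → ¬ f ⋖ w) := by
  classical
  set bad : Finset ℕ := F.biUnion fun f =>
    {kap r h (r f) - 1, kap r h (r f), kap r h (r f) + 1, h f - 1, h f} with hbad
  have hcard : bad.card ≤ m := by
    refine le_trans (card_biUnion_le_card_mul _ _ 5 ?_) (by omega)
    intro f _
    exact card_le_five
  have hlt : (↑bad : Set ℕ).ncard < (bs r h V v).ncard := by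
    rw [Set.ncard_coe_finset]
    omega
  obtain ⟨j, ⟨w, hw, hvw, hj⟩, hjb⟩ :=
    Set.exists_mem_notMem_of_ncard_lt_ncard hlt (Finset.finite_toSet _)
  refine ⟨w, hw, hvw, ?_⟩
  intro f hf
  have hjf : j ≠ kap r h (r f) - 1 ∧ j ≠ kap r h (r f) ∧ j ≠ kap r h (r f) + 1 ∧ j ≠ h f - 1 ∧
      j ≠ h f := by
    refine ⟨?_, ?_, ?_, ?_, ?_⟩ <;>
    · intro he
      apply hjb
      rw [Finset.mem_coe, hbad, mem_biUnion]
      refine ⟨f, hf, ?_⟩
      rw [he]
      simp
  obtain ⟨h1, h2, h3, h4, h5⟩ := hjf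
  refine ⟨?_, ?_, ?_⟩
  · intro hwf
    have h6 := H.b_le_h hwf.1
    have h7 := H.h_le hwf
    omega
  · omega
  · intro hvf hfw
    have h6 := H.b_le_h hfw.1
    have h7 := H.h_le hfw
    have h8 := H.b_le_h hvw.1
    have h9 := H.h_le hvw
    omega

theorem embed {l r : P → α} {h : P → ℕ} (H : Rep l r h) (m : ℕ) (W : Set P) (j : ℕ) :
    5 * (j+1) ≤ m → ∀ (A : Type v) [Fintype A] (T : SimpleGraph A), T.IsTree →
      Fintype.card A = j + 1 → ∀ k, (Vs r h m W (k+j)).Nonempty →
      ∃ φ : A → P, Function.Injective φ ∧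
        (∀ x y, (φ x ⋖ φ y ∨ φ y ⋖ φ x) ↔ T.Adj x y) ∧
        (∀ x, φ x ∈ Vs r h m W k) ∧
        ∀ x y, x ≠ y → kap r h (r (φ x)) + 2 ≤ kap r h (r (φ y)) ∨
          kap r h (r (φ y)) + 2 ≤ kap r h (r (φ x)) := by
  classical
  induction j with
  | zero =>
    intro hm A _ T hT hA k hne
    obtain ⟨p, hp⟩ := hne
    have hsub : ∀ x y : A, x = y := by
      intro x y
      exact Fintype.card_le_one_iff.1 (by omega) x y
    refine ⟨fun _ => p, fun x y _ => hsub x y, ?_, fun _ => hp, ?_⟩
    · intro x y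
      refine ⟨fun hxy => ?_, fun hxy => ?_⟩
      · rcases hxy with hxy | hxy <;> exact absurd hxy.1 (lt_irrefl _)
      · exact absurd (hsub x y) hxy.ne
    · intro x y hxy
      exact absurd (hsub x y) hxy
  | succ j ih =>
    intro hm A _ T hT hA k hne
    haveI : Nontrivial A := by
      rw [← Fintype.one_lt_card_iff_nontrivial]
      omega
    obtain ⟨x, hx⟩ := hT.exists_vert_degree_one_of_nontrivial
    obtain ⟨y, hxy, hyu⟩ := SimpleGraph.degree_eq_one_iff_existsUnique_adj.1 hx
    have hT' : (T.induce {x}ᶜ).IsTree :=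
      ⟨hT.connected.induce_compl_singleton_of_degree_eq_one hx, hT.isAcyclic.induce _⟩
    have hcard : Fintype.card ↥({x}ᶜ : Set A) = j + 1 := by
      rw [Fintype.card_compl_set, hA]
      simp
    obtain ⟨φ, hinj, hadj, hV, hb⟩ := ih (by omega) ↥({x}ᶜ : Set A) (T.induce {x}ᶜ) hT' hcard (k+1)
      (by rw [show k + 1 + j = k + (j + 1) by omega]; exact hne)
    have hyx : y ∈ ({x}ᶜ : Set A) := by
      intro h1
      exact hxy.ne (Set.mem_singleton_iff.1 h1).symm
    have hrich := (hV ⟨y, hyx⟩).2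
    obtain ⟨w, hwV, hvw, hw⟩ := exists_new H hrich (univ.image φ) (by
      have h1 : (univ.image φ).card ≤ j + 1 := by
        rw [← hcard]
        exact card_image_le
      omega)
    have hnew : ∀ a : ↥({x}ᶜ : Set A), ¬ w ⋖ φ a ∧
        (kap r h (r w) + 2 ≤ kap r h (r (φ a)) ∨ kap r h (r (φ a)) + 2 ≤ kap r h (r w)) ∧
        (a ≠ ⟨y, hyx⟩ → ¬ φ a ⋖ w) := by
      intro a
      obtain ⟨h1, h2, h3⟩ := hw (φ a) (mem_image.2 ⟨a, mem_univ a, rfl⟩)
      exact ⟨h1, h2, fun ha => h3 (hb _ _ (Ne.symm ha))⟩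
    have hmem : ∀ {a : A}, a ≠ x → a ∈ ({x}ᶜ : Set A) := fun ha h1 => ha (Set.mem_singleton_iff.1 h1)
    refine ⟨fun a => if ha : a = x then w else φ ⟨a, hmem ha⟩, ?_, ?_, ?_, ?_⟩
    · intro a a' haa
      by_cases ha : a = x <;> by_cases ha' : a' = x
      · rw [ha, ha']
      · exfalso
        simp only [ha, ha', dif_pos, dif_neg, not_false_eq_true] at haa
        have := (hnew ⟨a', hmem ha'⟩).2.1
        rw [← haa] at this
        omega
      · exfalso
        simp only [ha, ha', dif_pos, dif_neg, not_false_eq_true] at haa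
        have := (hnew ⟨a, hmem ha⟩).2.1
        rw [haa] at this
        omega
      · simp only [ha, ha', dif_neg, not_false_eq_true] at haa
        exact congrArg Subtype.val (hinj haa)
    · intro a a'
      by_cases ha : a = x <;> by_cases ha' : a' = x
      · simp only [ha, ha', dif_pos]
        refine ⟨fun h1 => ?_, fun h1 => absurd rfl h1.ne⟩
        rcases h1 with h1 | h1 <;> exact absurd h1.1 (lt_irrefl _)
      · simp only [ha, ha', dif_pos, dif_neg, not_false_eq_true]
        by_cases hay : a' = y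
        · subst hay
          exact ⟨fun _ => hxy, fun _ => Or.inr hvw⟩
        · refine ⟨fun h1 => ?_, fun h1 => absurd (hyu a' h1) hay⟩
          rcases h1 with h1 | h1
          · exact absurd h1 (hnew ⟨a', hmem ha'⟩).1
          · exact absurd h1 ((hnew ⟨a', hmem ha'⟩).2.2 (fun h2 => hay (congrArg Subtype.val h2)))
      · simp only [ha, ha', dif_pos, dif_neg, not_false_eq_true]
        rw [T.adj_comm]
        by_cases hay : a = y
        · subst hay
          exact ⟨fun _ => hxy, fun _ => Or.inl hvw⟩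
        · refine ⟨fun h1 => ?_, fun h1 => absurd (hyu a h1) hay⟩
          rcases h1 with h1 | h1
          · exact absurd h1 ((hnew ⟨a, hmem ha⟩).2.2 (fun h2 => hay (congrArg Subtype.val h2)))
          · exact absurd h1 (hnew ⟨a, hmem ha⟩).1
      · simp only [ha, ha', dif_neg, not_false_eq_true]
        exact hadj ⟨a, hmem ha⟩ ⟨a', hmem ha'⟩
    · intro a
      by_cases ha : a = x
      · simp only [ha, dif_pos]
        exact hwV
      · simp only [ha, dif_neg, not_false_eq_true]
        exact Vs_succ_subset r h m W k (hV _)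
    · intro a a' haa
      by_cases ha : a = x <;> by_cases ha' : a' = x
      · exact absurd (ha.trans ha'.symm) haa
      · simp only [ha, ha', dif_pos, dif_neg, not_false_eq_true]
        exact (hnew ⟨a', hmem ha'⟩).2.1
      · simp only [ha, ha', dif_pos, dif_neg, not_false_eq_true]
        exact (hnew ⟨a, hmem ha⟩).2.1.symm
      · simp only [ha, ha', dif_neg, not_false_eq_true]
        exact hb _ _ (fun h1 => haa (congrArg Subtype.val h1))

end Pool.Agent.Lib.MP_b0c2b5_co.IO
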