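import Pool.Agent.Lib.MP_b0c2b5_co.IO.Basic

/-!
Interval orders: the vertices whose upper covers reach few places have bounded chromatic number.
-/

set_option autoImplicit false

namespace Pool.Agent.Lib.MP_b0c2b5_co.IO

open Finset Pool.Agent.Lib.MP_b0c2b5_co.LS

universe u w

variable {P : Type u} [Fintype P] [PartialOrder P] {α : Type w} [LinearOrder α]

/-- the places reached by the upper covers of `v` in `V` -/
def bs (r : P → α) (h : P → ℕ) (V : Set P) (v : P) : Set ℕ :=
  {j | ∃ w ∈ V, v ⋖ w ∧ kap r h (r w) = j}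

lemma bs_finite (r : P → α) (h : P → ℕ) (V : Set P) (v : P) : (bs r h V v).Finite := by
  refine (Set.finite_range (fun w : P => kap r h (r w))).subset ?_
  rintro j ⟨w, _, _, hj⟩
  exact ⟨w, hj⟩

/-- the poor elements of `V` -/
def Poor (r : P → α) (h : P → ℕ) (V : Set P) (m : ℕ) : Set P := {v | v ∈ V ∧ (bs r h V v).ncard ≤ m}

theorem poor_col {l r : P → α} {h : P → ℕ} (H : Rep l r h) (V : Set P) (m : ℕ) :
    ColOn (fun a b : P => a ⋖ b) (Poor r h V m) ((2*m+1)*2) := by
  classical
  set D := Poor r h V m with hD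
  obtain ⟨N, hN⟩ : ∃ N, ∀ v : P, kap r h (r v) < N := by
    refine ⟨univ.sup (fun v : P => kap r h (r v)) + 1, fun v => ?_⟩
    exact Nat.lt_succ_of_le (le_sup (f := fun v : P => kap r h (r v)) (mem_univ v))
  set a' : Fin N → Fin N → Prop := fun i j => i < j ∧ ∃ v ∈ D, ∃ w ∈ D, v ⋖ w ∧
    kap r h (r v) = i ∧ kap r h (r w) = j with ha'
  have hcol : Col a' (2*m+1) := by
    refine degenerate_col (r := fun i j : Fin N => i < j) ?_ (fun x b hb => hb.1) ?_
    · intro x hx
      have h1 : ∀ y, Relation.TransGen (fun i j : Fin N => i < j) x y → x < y := by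
        intro y hy
        induction hy with
        | single h => exact h
        | tail _ h ih => exact lt_trans ih h
      exact lt_irrefl _ (h1 x hx)
    · intro i
      by_cases hne : ∃ v ∈ D, kap r h (r v) = i
      · have hfin : (univ.filter (fun v : P => v ∈ D ∧ kap r h (r v) = i)).Nonempty := by
          obtain ⟨v, hv, hv2⟩ := hne
          exact ⟨v, mem_filter.2 ⟨mem_univ v, hv, hv2⟩⟩
        obtain ⟨v0, hv0, hmin⟩ := exists_min_image _ r hfin
        obtain ⟨v1, hv1, hmax⟩ := exists_max_image _ r hfin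
        rw [mem_filter] at hv0 hv1
        have hsub : Fin.val '' {j | a' i j} ⊆ bs r h V v0 ∪ bs r h V v1 := by
          rintro _ ⟨j, ⟨hij, v, hv, w, hw, hvw, hvi, hwj⟩, rfl⟩
          have hvm : v ∈ univ.filter (fun v : P => v ∈ D ∧ kap r h (r v) = i) :=
            mem_filter.2 ⟨mem_univ v, hv, hvi⟩
          have h1 := H.b_le_h hvw.1
          have h2 := H.h_le hvw
          rcases Nat.lt_or_ge (h w) (kap r h (r v) + 1) with h3 | h3
          · left
            refine ⟨w, hw.1, ?_, hwj⟩
            refine H.nest0 (v := v0) (v' := v) (by rw [hv0.2.2, hvi]) (hmin v hvm) hvw ?_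
            rw [hv0.2.2, ← hvi]
            omega
          · right
            refine ⟨w, hw.1, ?_, hwj⟩
            exact H.nest1 (v := v) (v' := v1) (by rw [hv1.2.2, hvi]) (hmax v hvm) hvw (by omega)
        calc Set.ncard {j | a' i j} = Set.ncard (Fin.val '' {j | a' i j}) :=
              (Set.ncard_image_of_injective _ Fin.val_injective).symm
          _ ≤ Set.ncard (bs r h V v0 ∪ bs r h V v1) :=
              Set.ncard_le_ncard hsub ((bs_finite r h V v0).union (bs_finite r h V v1))
          _ ≤ Set.ncard (bs r h V v0) + Set.ncard (bs r h V v1) := Set.ncard_union_le _ _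
          _ ≤ 2 * m := by
              have h1 := hv0.2.1.2
              have h2 := hv1.2.1.2
              omega
      · have he : {j | a' i j} = ∅ := by
          rw [Set.eq_empty_iff_forall_notMem]
          rintro j ⟨_, v, hv, w, _, _, hvi, _⟩
          exact hne ⟨v, hv, hvi⟩
        rw [he, Set.ncard_empty]
        exact Nat.zero_le _
  obtain ⟨c, hc⟩ := hcol
  refine ⟨fun v => (c ⟨kap r h (r v), hN v⟩ : ℕ) * 2 +
    (if ∃ u ∈ D, u ⋖ v ∧ kap r h (r u) = kap r h (r v) then 1 else 0), ?_, ?_⟩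
  · intro v _
    have h1 := (c ⟨kap r h (r v), hN v⟩).2
    show (c ⟨kap r h (r v), hN v⟩ : ℕ) * 2 +
      (if ∃ u ∈ D, u ⋖ v ∧ kap r h (r u) = kap r h (r v) then 1 else 0) < _
    split_ifs <;> omega
  · intro x hx y hy hxy he
    simp only at he
    have hle := H.b_mono hxy.1
    rcases Nat.lt_or_ge (kap r h (r x)) (kap r h (r y)) with h1 | h1
    · have h2 := hc ⟨kap r h (r x), hN x⟩ ⟨kap r h (r y), hN y⟩ ⟨h1, x, hx, y, hy, hxy, rfl, rfl⟩
      apply h2
      apply Fin.ext
      split_ifs at he <;> omega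
    · have h2 : kap r h (r x) = kap r h (r y) := le_antisymm hle h1
      have h3 : ∃ u ∈ D, u ⋖ y ∧ kap r h (r u) = kap r h (r y) := ⟨x, hx, hxy, h2⟩
      have h4 : ¬ ∃ u ∈ D, u ⋖ x ∧ kap r h (r u) = kap r h (r x) := by
        rintro ⟨u, _, hux, hu⟩
        have := H.b_lt hux.1 hxy.1
        omega
      rw [if_pos h3, if_neg h4] at he
      omega

/-- a decreasing sequence of sets, each consisting of elements which are rich with respect to the preceding one -/
def Vs (r : P → α) (h : P → ℕ) (m : ℕ) (W : Set P) : ℕ → Set P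
  | 0 => W
  | k + 1 => {v | v ∈ Vs r h m W k ∧ m < (bs r h (Vs r h m W k) v).ncard}

lemma Vs_succ_subset (r : P → α) (h : P → ℕ) (m : ℕ) (W : Set P) (k : ℕ) :
    Vs r h m W (k+1) ⊆ Vs r h m W k := fun _ hv => hv.1

lemma Vs_subset (r : P → α) (h : P → ℕ) (m : ℕ) (W : Set P) (k : ℕ) : Vs r h m W k ⊆ W := by
  induction k with
  | zero => exact subset_rfl
  | succ k ih => exact (Vs_succ_subset r h m W k).trans ih

theorem col_of_empty {l r : P → α} {h : P → ℕ} (H : Rep l r h) (m : ℕ) (W : Set P) (k : ℕ) :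
    Vs r h m W k = ∅ → ColOn (fun a b : P => a ⋖ b) W (k * ((2*m+1)*2)) := by
  have key : ∀ k, ColOn (fun a b : P => a ⋖ b) (W \ Vs r h m W k) (k * ((2*m+1)*2)) := by
    intro k
    induction k with
    | zero =>
      refine ⟨fun _ => 0, ?_, ?_⟩
      · rintro v ⟨h1, h2⟩
        exact absurd h1 h2
      · rintro x ⟨h1, h2⟩
        exact absurd h1 h2
    | succ k ih =>
      have h1 := ih.union (poor_col H (Vs r h m W k) m)
      refine h1.mono ?_ (Nat.succ_mul k _).ge
      rintro v ⟨hv, hv2⟩
      by_cases hk : v ∈ Vs r h m W k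
      · right
        refine ⟨hk, ?_⟩
        by_contra hcon
        exact hv2 ⟨hk, not_le.1 hcon⟩
      · exact Or.inl ⟨hv, hk⟩
  intro he
  have := key k
  rwa [he, Set.sdiff_empty] at this

end Pool.Agent.Lib.MP_b0c2b5_co.IO
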